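import Pool.Agent.TH569.Peg.D

/-! Two points of a Jordan curve that change places: one of them runs along an arc, the other one
jumps between the two ends of the complementary arc. -/

set_option autoImplicit false
open Complex Set Topology Metric Filter

namespace Pool.Agent.H436.Arc

open Pool.Agent.H763R2 Pool.Agent.H763R2.An
open Pool.Agent.H763R2.Dm (NoSq)

variable {c : ℝ → ℂ}

theorem floor_loc {f : ℝ × ℝ → ℝ} {p : ℝ × ℝ} (hf : ContinuousAt f p) (h : ∀ m : ℤ, f p ≠ m) :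
    ∀ᶠ r in 𝓝 p, ⌊f r⌋ = ⌊f p⌋ := by
  have h1 : ∀ᶠ r in 𝓝 p, (⌊f p⌋ : ℝ) < f r :=
    hf.eventually (lt_mem_nhds (lt_of_le_of_ne (Int.floor_le _) (h _).symm))
  have h2 : ∀ᶠ r in 𝓝 p, f r < ⌊f p⌋ + 1 :=
    hf.eventually (gt_mem_nhds (Int.lt_floor_add_one _))
  filter_upwards [h1, h2] with r a b
  exact Int.floor_eq_iff.2 ⟨a.le, b⟩

/-- the number of the sheet -/
theorem exists_m (L : Loop c) (J : Inj c) (nosq : NoSq (range c)) : ∃ (m : ℝ → ℝ → ℤ) (g : ℤ),
    Odd g ∧ (∀ x y, x < y → y < x + 1 → m (x + 1) (y + 1) = m x y + g) ∧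
    ∀ x y, x < y → y < x + 1 → (mgc c (DD c x y) ≤ 0 ∨ mgc c (CC c x y) ≤ 0) →
      ∀ᶠ p : ℝ × ℝ in 𝓝 (x, y), m p.1 p.2 = m x y := by
  have hπ := Real.pi_pos
  obtain ⟨Θ, g, A, ho⟩ := exists_odd L J nosq
  refine ⟨fun x y => ⌊(Θ x y - Real.pi / 4) / (2 * Real.pi)⌋, g, ho, ?_, ?_⟩
  · intro x y h1 h2
    beta_reduce
    rw [A.per x y h1 h2, show (Θ x y + g * (2 * Real.pi) - Real.pi / 4) / (2 * Real.pi) =
      (Θ x y - Real.pi / 4) / (2 * Real.pi) + g by field_simp; ring, Int.floor_add_intCast]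
  · intro x y h1 h2 hb
    have hU : ((x, y) : ℝ × ℝ) ∈ UU := ⟨h1, h2⟩
    have hc : ContinuousAt (fun r : ℝ × ℝ => (Θ r.1 r.2 - Real.pi / 4) / (2 * Real.pi)) (x, y) :=
      ((A.cont.continuousAt (UU_open.mem_nhds hU)).sub continuousAt_const).div_const _
    refine floor_loc hc fun k hk => ?_
    simp only at hk
    rw [div_eq_iff (by positivity)] at hk
    obtain ⟨ρ, hρ, e1, e2⟩ := A.ex x y h1 h2
    have h3 : Θ x y = Real.pi / 4 + k * (2 * Real.pi) := by linarith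
    rw [h3, Real.cos_add_int_mul_two_pi, Real.cos_pi_div_four] at e1
    rw [h3, Real.sin_add_int_mul_two_pi, Real.sin_pi_div_four] at e2
    have hp : 0 < ρ * (√2 / 2) := by positivity
    rcases hb with hb | hb <;> linarith

/-- a locally constant function along the second point, with the first one at one of the ends -/
theorem half_const {n : ℝ → ℝ → ℤ} {good : ℝ → ℝ → Prop} {p : ℝ} (hp0 : 0 ≤ p) (hp1 : p ≤ 1)
    (hloc : ∀ x ∈ Icc 0 p, ∀ t ∈ Icc p 1, good x t →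
      ∀ᶠ q : ℝ × ℝ in 𝓝 (x, t), n q.1 q.2 = n x t)
    {f : ℝ → ℝ} (hf : ContinuousOn f (Icc p 1))
    (ha : ∀ t ∈ Icc p 1, f t ≤ 0 → good 0 t) (hb : ∀ t ∈ Icc p 1, 0 ≤ f t → good p t)
    (hm : ∀ t ∈ Icc p 1, f t = 0 → ∀ x ∈ Icc 0 p, good x t)
    (h0 : ¬ good p p) (h1 : ¬ good 0 1) : n 0 p = n p 1 := by
  have i0 : (0:ℝ) ∈ Icc 0 p := ⟨le_rfl, hp0⟩
  have ip : p ∈ Icc 0 p := ⟨hp0, le_rfl⟩
  have jp : p ∈ Icc p 1 := ⟨le_rfl, hp1⟩
  have j1 : (1:ℝ) ∈ Icc p 1 := ⟨hp1, le_rfl⟩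
  -- moving the first point
  have mid : ∀ t ∈ Icc p 1, f t = 0 → n 0 t = n p t := by
    intro t ht h
    have hc : ContinuousOn (fun x => n x t) (Icc 0 p) := by
      intro x hx
      have h2 := hloc x hx t ht (hm t ht h x hx)
      have h3 : Tendsto (fun x' : ℝ => (x', t)) (𝓝[Icc 0 p] x) (𝓝 (x, t)) :=
        (tendsto_id.mono_left nhdsWithin_le_nhds).prodMk_nhds tendsto_const_nhds
      have h4 : ∀ᶠ x' in 𝓝[Icc 0 p] x, n x' t = n x t := h3.eventually h2
      exact (continuousWithinAt_const (b := n x t)).congr_of_eventuallyEq h4 rfl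
    exact isPreconnected_Icc.constant_of_mapsTo (T := (univ : Set ℤ)) (IsDiscrete.univ) hc
      (mapsTo_univ _ _) i0 ip
  have loc : ∀ x ∈ Icc 0 p, ∀ t ∈ Icc p 1, good x t →
      ∀ᶠ t' in 𝓝[Icc p 1] t, n x t' = n x t := by
    intro x hx t ht h
    have h3 : Tendsto (fun t' : ℝ => (x, t')) (𝓝[Icc p 1] t) (𝓝 (x, t)) :=
      tendsto_const_nhds.prodMk_nhds (tendsto_id.mono_left nhdsWithin_le_nhds)
    exact h3.eventually (hloc x hx t ht h)
  classical
  set e : ℝ → ℤ := fun t => if f t ≤ 0 then n 0 t else n p t with he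
  have hc : ContinuousOn e (Icc p 1) := by
    intro t ht
    have hev : ∀ᶠ t' in 𝓝[Icc p 1] t, e t' = e t := by
      rcases lt_trichotomy (f t) 0 with h | h | h
      · have a1 := loc 0 i0 t ht (ha t ht h.le)
        have a2 : ∀ᶠ t' in 𝓝[Icc p 1] t, f t' < 0 := (hf t ht).eventually (gt_mem_nhds h)
        filter_upwards [a1, a2] with t' b1 b2
        simp only [he]
        rw [if_pos b2.le, if_pos h.le, b1]
      · have a1 := loc 0 i0 t ht (ha t ht h.le)
        have a2 := loc p ip t ht (hb t ht h.ge)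
        filter_upwards [a1, a2] with t' b1 b2
        simp only [he]
        rw [if_pos h.le]
        by_cases q : f t' ≤ 0
        · rw [if_pos q, b1]
        · rw [if_neg q, b2, mid t ht h]
      · have a1 := loc p ip t ht (hb t ht h.le)
        have a2 : ∀ᶠ t' in 𝓝[Icc p 1] t, 0 < f t' := (hf t ht).eventually (lt_mem_nhds h)
        filter_upwards [a1, a2] with t' b1 b2
        simp only [he]
        rw [if_neg (not_le.2 b2), if_neg (not_le.2 h), b1]
    exact (continuousWithinAt_const (b := e t)).congr_of_eventuallyEq hev rfl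
  have hconst := isPreconnected_Icc.constant_of_mapsTo (T := (univ : Set ℤ)) (IsDiscrete.univ) hc
    (mapsTo_univ _ _) jp j1
  have f0 : f p < 0 := by
    by_contra h
    exact h0 (hb p jp (not_lt.1 h))
  have f1 : 0 < f 1 := by
    by_contra h
    exact h1 (ha 1 j1 (not_lt.1 h))
  simp only [he] at hconst
  rwa [if_pos f0.le, if_neg (not_le.2 f1)] at hconst

/-- the principle -/
theorem principle (L : Loop c) (J : Inj c) (nosq : NoSq (range c)) {p : ℝ} (hp0 : 0 < p)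
    (hp1 : p < 1) {f g : ℝ → ℝ} (hf : ContinuousOn f (Icc p 1)) (hg : ContinuousOn g (Icc p 1))
    {lg rg : ℝ → ℝ → Prop}
    (hlg : ∀ x t, lg x t → c x ≠ c t ∧ (mgc c (c x + I * (c t - c x)) ≤ 0 ∨
      mgc c (c t + I * (c t - c x)) ≤ 0))
    (hrg : ∀ x t, rg x t → c x ≠ c t ∧ (mgc c (c x - I * (c t - c x)) ≤ 0 ∨
      mgc c (c t - I * (c t - c x)) ≤ 0))
    (fa : ∀ t ∈ Icc p 1, f t ≤ 0 → lg 0 t) (fb : ∀ t ∈ Icc p 1, 0 ≤ f t → lg p t)
    (fm : ∀ t ∈ Icc p 1, f t = 0 → ∀ x ∈ Icc 0 p, lg x t)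
    (ga : ∀ t ∈ Icc p 1, g t ≤ 0 → rg 0 t) (gb : ∀ t ∈ Icc p 1, 0 ≤ g t → rg p t)
    (gm : ∀ t ∈ Icc p 1, g t = 0 → ∀ x ∈ Icc 0 p, rg x t) : False := by
  obtain ⟨m, G, ho, per, loc⟩ := exists_m L J nosq
  have c1 : c 1 = c 0 := by
    have := L.per 0
    rwa [zero_add] at this
  have key1 : m 0 p = m p 1 := by
    refine half_const (n := m) (good := lg) hp0.le hp1.le ?_ hf fa fb fm
      (fun h => (hlg _ _ h).1 rfl) (fun h => (hlg _ _ h).1 c1.symm)
    intro x hx t ht h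
    obtain ⟨hne, hh⟩ := hlg x t h
    have h1 : x < t := lt_of_le_of_ne (hx.2.trans ht.1) fun h => hne (by rw [h])
    have h2 : t < x + 1 := by
      refine lt_of_le_of_ne (by linarith [hx.1, ht.2]) fun h => hne ?_
      rw [h, L.per]
    refine loc x t h1 h2 ?_
    rw [W675.Peg.DD_eq, W675.Peg.CC_eq]
    exact hh
  have key2 : m p 1 = m 1 (p + 1) := by
    have := half_const (n := fun x t => m t (x + 1)) (good := rg) hp0.le hp1.le ?_ hg ga gb gm
      (fun h => (hrg _ _ h).1 rfl) (fun h => (hrg _ _ h).1 c1.symm)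
    · simpa using this
    intro x hx t ht h
    obtain ⟨hne, hh⟩ := hrg x t h
    have h1 : t < x + 1 := by
      refine lt_of_le_of_ne (by linarith [hx.1, ht.2]) fun h => hne ?_
      rw [h, L.per]
    have h2 : x + 1 < t + 1 := by
      have : x < t := lt_of_le_of_ne (hx.2.trans ht.1) fun h => hne (by rw [h])
      linarith
    have h3 := loc t (x + 1) h1 h2 (by
      rw [W675.Peg.DD_eq, W675.Peg.CC_eq, L.per]
      rw [show c t + I * (c x - c t) = c t - I * (c t - c x) by ring,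
        show c x + I * (c x - c t) = c x - I * (c t - c x) by ring]
      exact hh.symm)
    have h4 : Tendsto (fun q : ℝ × ℝ => (q.2, q.1 + 1)) (𝓝 (x, t)) (𝓝 (t, x + 1)) := by
      have : Continuous fun q : ℝ × ℝ => (q.2, q.1 + 1) := by fun_prop
      exact this.tendsto (x, t)
    exact h4.eventually h3
  have key3 := per 0 p hp0 (by linarith)
  rw [zero_add, ← key2, ← key1] at key3
  have : G = 0 := by omega
  rw [this] at ho
  exact absurd ho (by decide)

end Pool.Agent.H436.Arc
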