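import Pool.Agent.H436.Arc.Geo

/-! Circular arcs, and curves in a rectangle. -/

set_option autoImplicit false
open Complex Set Topology Metric Filter

namespace Pool.Agent.H436.Arc

open Pool.Agent.H763R2 Pool.Agent.H763R2.An
open Pool.Agent.H763R2.Dm (NoSq)

variable {c : ℝ → ℂ}

/-- curves in a rectangle -/
theorem rect (L : Loop c) (J : Inj c) (nosq : NoSq (range c)) {p : ℝ} (hp0 : 0 < p)
    (hp1 : p < 1) {X ε : ℝ} (hε0 : 0 ≤ ε) (hε1 : ε < 1)
    (hbox : ∀ t, |(c t).re| ≤ X ∧ |(c t).im| ≤ 1)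
    (ha : 1 + ε ≤ (c 0).re - (c 0).im) (hb : 1 + ε ≤ -(c p).re - (c p).im)
    (hK : ∀ s ∈ Icc 0 p, 1 - ε ≤ |(c s).re| + (c s).im)
    (hγ : ∀ t ∈ Icc p 1, 1 - ε - X < (c t).im → (c t).re ≠ ε ∧ (c t).re ≠ -ε) : False := by
  have top : ∀ {z : ℂ}, 1 ≤ z.im → mgc c z ≤ 0 := fun h =>
    W675.Peg.mgc_le_above L (fun t => (abs_le.1 (hbox t).2).2) h
  have bot : ∀ {z : ℂ}, z.im ≤ -1 → mgc c z ≤ 0 := fun h =>
    W675.Peg.mgc_le_below L (fun t => (abs_le.1 (hbox t).2).1) h
  have rt : ∀ {z : ℂ}, X ≤ z.re → mgc c z ≤ 0 := fun h =>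
    W675.Peg.mgc_le_right L (fun t => (abs_le.1 (hbox t).1).2) h
  have lf : ∀ {z : ℂ}, z.re ≤ -X → mgc c z ≤ 0 := fun h =>
    W675.Peg.mgc_le_left L (fun t => (abs_le.1 (hbox t).1).1) h
  have dre : ∀ A B : ℂ, (A + I * (B - A)).re = A.re + A.im - B.im := fun A B => by simp; ring
  have dim : ∀ A B : ℂ, (A + I * (B - A)).im = A.im - A.re + B.re := fun A B => by simp; ring
  have ere : ∀ A B : ℂ, (A - I * (B - A)).re = A.re - A.im + B.im := fun A B => by simp; ring
  have eim : ∀ A B : ℂ, (A - I * (B - A)).im = A.im + A.re - B.re := fun A B => by simp; ring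
  have i0 : (0:ℝ) ∈ Icc 0 p := ⟨le_rfl, hp0.le⟩
  have ip : p ∈ Icc 0 p := ⟨hp0.le, le_rfl⟩
  have ra := hK 0 i0
  have rb := hK p ip
  have a0 : 0 < (c 0).re := by
    by_contra h
    rw [abs_of_nonpos (not_lt.1 h)] at ra
    linarith
  have b0 : (c p).re < 0 := by
    by_contra h
    rw [abs_of_nonneg (not_lt.1 h)] at rb
    linarith
  rw [abs_of_pos a0] at ra
  rw [abs_of_neg b0] at rb
  have c1 := L.cont
  refine principle L J nosq hp0 hp1 (f := fun t => (c t).re - ε) (g := fun t => (c t).re + ε)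
    ?_ ?_ (lg := fun x t => c x ≠ c t ∧ mgc c (c x + I * (c t - c x)) ≤ 0)
    (rg := fun x t => c x ≠ c t ∧ mgc c (c x - I * (c t - c x)) ≤ 0)
    (fun x t h => ⟨h.1, Or.inl h.2⟩) (fun x t h => ⟨h.1, Or.inl h.2⟩) ?_ ?_ ?_ ?_ ?_ ?_
  · fun_prop
  · fun_prop
  · intro t _ h
    refine ⟨fun he => ?_, bot ?_⟩
    · rw [← he] at h; linarith
    · rw [dim]; linarith
  · intro t _ h
    refine ⟨fun he => ?_, top ?_⟩
    · rw [← he] at h; linarith
    · rw [dim]; linarith
  · intro t ht h x hx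
    have h1 : (c t).re = ε := by linarith
    have h2 : (c t).im ≤ 1 - ε - X := by
      by_contra hc
      exact (hγ t ht (not_le.1 hc)).1 h1
    have h3 := hK x hx
    refine ⟨ne_pair L J hx ht (fun he => ?_) (fun he => ?_), ?_⟩
    · rw [he] at h1; linarith
    · rw [he] at h1; linarith
    · rcases le_total (c x).re 0 with h4 | h4
      · rw [abs_of_nonpos h4] at h3
        exact top (by rw [dim]; linarith)
      · rw [abs_of_nonneg h4] at h3
        exact rt (by rw [dre]; linarith)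
  · intro t _ h
    refine ⟨fun he => ?_, top ?_⟩
    · rw [← he] at h; linarith
    · rw [eim]; linarith
  · intro t _ h
    refine ⟨fun he => ?_, bot ?_⟩
    · rw [← he] at h; linarith
    · rw [eim]; linarith
  · intro t ht h x hx
    have h1 : (c t).re = -ε := by linarith
    have h2 : (c t).im ≤ 1 - ε - X := by
      by_contra hc
      exact (hγ t ht (not_le.1 hc)).2 h1
    have h3 := hK x hx
    refine ⟨ne_pair L J hx ht (fun he => ?_) (fun he => ?_), ?_⟩
    · rw [he] at h1; linarith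
    · rw [he] at h1; linarith
    · rcases le_total (c x).re 0 with h4 | h4
      · rw [abs_of_nonpos h4] at h3
        exact lf (by rw [ere]; linarith)
      · rw [abs_of_nonneg h4] at h3
        exact top (by rw [eim]; linarith)

theorem re_exp (r φ ψ : ℝ) : ((r : ℂ) * exp (φ * I) * (starRingEnd ℂ) (exp (ψ * I))).re =
    r * Real.cos (φ - ψ) := by
  rw [← exp_conj, map_mul, conj_I, conj_ofReal, mul_assoc, ← exp_add,
    show (φ : ℂ) * I + ψ * -I = ((φ - ψ : ℝ) : ℂ) * I by push_cast; ring, re_ofReal_mul,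
    exp_ofReal_mul_I_re]

theorem im_exp (r φ ψ : ℝ) : ((r : ℂ) * exp (φ * I) * (starRingEnd ℂ) (exp (ψ * I))).im =
    r * Real.sin (φ - ψ) := by
  rw [← exp_conj, map_mul, conj_I, conj_ofReal, mul_assoc, ← exp_add,
    show (φ : ℂ) * I + ψ * -I = ((φ - ψ : ℝ) : ℂ) * I by push_cast; ring, im_ofReal_mul,
    exp_ofReal_mul_I_im]

theorem cos_ge {δ : ℝ} (h1 : -(Real.pi / 4) ≤ δ) (h2 : δ ≤ Real.pi / 4) :
    1 ≤ √2 * Real.cos δ := by
  have hπ := Real.pi_pos
  have h3 : Real.cos (Real.pi / 4) ≤ Real.cos |δ| :=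
    Real.cos_le_cos_of_nonneg_of_le_pi (abs_nonneg _) (by linarith) (abs_le.2 ⟨by linarith, h2⟩)
  rw [Real.cos_abs, Real.cos_pi_div_four] at h3
  have s2 : √2 * √2 = 2 := Real.mul_self_sqrt (by norm_num)
  have hs : (0:ℝ) < √2 := Real.sqrt_pos.2 (by norm_num)
  nlinarith

theorem cos_ge' {δ : ℝ} (h1 : -(3 * Real.pi / 4) ≤ δ) (h2 : δ ≤ 3 * Real.pi / 4) :
    -1 ≤ √2 * Real.cos δ := by
  have hπ := Real.pi_pos
  have h3 : Real.cos (3 * Real.pi / 4) ≤ Real.cos |δ| :=
    Real.cos_le_cos_of_nonneg_of_le_pi (abs_nonneg _) (by linarith) (abs_le.2 ⟨by linarith, h2⟩)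
  rw [Real.cos_abs, show 3 * Real.pi / 4 = Real.pi - Real.pi / 4 by ring, Real.cos_pi_sub,
    Real.cos_pi_div_four] at h3
  have s2 : √2 * √2 = 2 := Real.mul_self_sqrt (by norm_num)
  have hs : (0:ℝ) < √2 := Real.sqrt_pos.2 (by norm_num)
  nlinarith

theorem circ_norm {k r : ℝ} (h1 : -1 ≤ k) (h2 : k ≤ √2) (hr : r ≤ 2 - √2) :
    1 ≤ 2 + r ^ 2 / 2 - √2 * r * k := by
  have s2 : √2 * √2 = 2 := Real.mul_self_sqrt (by norm_num)
  have hs : (0:ℝ) < √2 := Real.sqrt_pos.2 (by norm_num)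
  rcases le_total r 0 with h | h
  · have h3 : 0 ≤ -(√2 * r) * (k + 1) := mul_nonneg (by nlinarith) (by linarith)
    nlinarith [sq_nonneg (r + √2)]
  · have h3 : 0 ≤ √2 * r * (√2 - k) := mul_nonneg (mul_nonneg hs.le h) (by linarith)
    have h4 : 0 ≤ (2 - r - √2) * (2 - r + √2) := mul_nonneg (by linarith) (by linarith)
    nlinarith

/-- circular arcs -/
theorem circ (L : Loop c) (J : Inj c) (nosq : NoSq (range c)) {p : ℝ} (hp0 : 0 < p)
    (hp1 : p < 1) (hd : ∀ t, ‖c t‖ ≤ √2) {τ θ θ' : ℝ} (hτ : 0 ≤ τ)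
    (h1 : Real.pi / 2 + τ ≤ θ) (h2 : θ < Real.pi - τ) (h1' : τ < θ') (h2' : θ' ≤ Real.pi / 2 - τ)
    (ha : c 0 = √2 * exp (τ * I)) (hb : c p = √2 * exp ((Real.pi - τ : ℝ) * I))
    (hK : ∀ s ∈ Icc 0 p, ∃ φ ∈ Icc τ (Real.pi - τ), c s = √2 * exp (φ * I))
    (hγ : ∀ t ∈ Icc p 1, ∀ r : ℝ, 2 - √2 < r → c t ≠ r * exp (θ * I) ∧ c t ≠ r * exp (θ' * I)) :
    False := by
  have hπ := Real.pi_pos
  have s2 : √2 * √2 = 2 := Real.mul_self_sqrt (by norm_num)
  have hs : (0:ℝ) < √2 := Real.sqrt_pos.2 (by norm_num)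
  have s2c : ((√2 : ℝ) : ℂ) * ((√2 : ℝ) : ℂ) = 2 := by exact_mod_cast s2
  -- normal directions of the two lines
  have k1 : ∀ B : ℂ, (1 - I) / 2 * B * (starRingEnd ℂ) (exp ((θ - 3 * Real.pi / 4 : ℝ) * I)) =
      ((√2 / 2 : ℝ) : ℂ) * (I * (B * (starRingEnd ℂ) (exp (θ * I)))) := by
    intro B
    have e1 : (starRingEnd ℂ) (exp ((θ - 3 * Real.pi / 4 : ℝ) * I)) =
        (starRingEnd ℂ) (exp (θ * I)) * exp ((3 * Real.pi / 4 : ℝ) * I) := by
      rw [← exp_conj, ← exp_conj, ← exp_add]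
      congr 1
      simp only [map_mul, conj_I, conj_ofReal]
      push_cast
      ring
    have e2 : exp ((3 * Real.pi / 4 : ℝ) * I) = ((√2 / 2 : ℝ) : ℂ) * (-1 + I) := by
      apply Complex.ext
      · rw [exp_ofReal_mul_I_re, re_ofReal_mul,
          show 3 * Real.pi / 4 = Real.pi - Real.pi / 4 by ring, Real.cos_pi_sub,
          Real.cos_pi_div_four]
        simp
      · rw [exp_ofReal_mul_I_im, im_ofReal_mul,
          show 3 * Real.pi / 4 = Real.pi - Real.pi / 4 by ring, Real.sin_pi_sub,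
          Real.sin_pi_div_four]
        simp
    rw [e1, e2]
    linear_combination (-(1 / 2 : ℂ)) * ((√2 / 2 : ℝ) : ℂ) * B * (starRingEnd ℂ) (exp (θ * I)) *
      I_mul_I
  have k2 : ∀ B : ℂ, (1 + I) / 2 * B * (starRingEnd ℂ) (exp ((θ' - Real.pi / 4 : ℝ) * I)) =
      ((√2 / 2 : ℝ) : ℂ) * (I * (B * (starRingEnd ℂ) (exp (θ' * I)))) := by
    intro B
    have e1 : (starRingEnd ℂ) (exp ((θ' - Real.pi / 4 : ℝ) * I)) =
        (starRingEnd ℂ) (exp (θ' * I)) * exp ((Real.pi / 4 : ℝ) * I) := by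
      rw [← exp_conj, ← exp_conj, ← exp_add]
      congr 1
      simp only [map_mul, conj_I, conj_ofReal]
      push_cast
      ring
    have e2 : exp ((Real.pi / 4 : ℝ) * I) = ((√2 / 2 : ℝ) : ℂ) * (1 + I) := by
      apply Complex.ext
      · rw [exp_ofReal_mul_I_re, re_ofReal_mul, Real.cos_pi_div_four]
        simp
      · rw [exp_ofReal_mul_I_im, im_ofReal_mul, Real.sin_pi_div_four]
        simp
    rw [e1, e2]
    linear_combination ((1 / 2 : ℂ)) * ((√2 / 2 : ℝ) : ℂ) * B * (starRingEnd ℂ) (exp (θ' * I)) *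
      I_mul_I
  -- points on the lines
  have line : ∀ (B : ℂ) (ψ : ℝ), (((√2 / 2 : ℝ) : ℂ) * (I * (B * (starRingEnd ℂ) (exp (ψ * I))))).re = 0 →
      ∃ r : ℝ, B = r * exp (ψ * I) := by
    intro B ψ h
    rw [re_ofReal_mul, I_mul_re] at h
    have h3 : (B * (starRingEnd ℂ) (exp (ψ * I))).im = 0 := by
      rcases mul_eq_zero.1 h with h | h
      · exact absurd h (by positivity)
      · linarith
    refine ⟨(B * (starRingEnd ℂ) (exp (ψ * I))).re, ?_⟩
    have h4 : (((B * (starRingEnd ℂ) (exp (ψ * I))).re : ℝ) : ℂ) = B * (starRingEnd ℂ) (exp (ψ * I)) := by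
      apply Complex.ext
      · simp only [ofReal_re]
      · rw [ofReal_im, h3]
    rw [h4, mul_assoc, mul_comm ((starRingEnd ℂ) _), mul_conj, normSq_eq_norm_sq,
      Complex.norm_exp_ofReal_mul_I]
    simp
  -- points of the arc are not on the lines unless ...
  have off : ∀ (φ ψ r : ℝ), (√2 : ℂ) * exp (φ * I) = r * exp (ψ * I) → Real.sin (φ - ψ) = 0 := by
    intro φ ψ r h
    have h3 := im_exp √2 φ ψ
    rw [h, im_exp, sub_self, Real.sin_zero, mul_zero] at h3
    rcases mul_eq_zero.1 h3.symm with h | h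
    · exact absurd h hs.ne'
    · exact h
  have nrm : ∀ (φ ψ r : ℝ) (μ : ℂ), ‖(√2 : ℂ) * exp (φ * I) - μ * (r * exp (ψ * I))‖ ^ 2 =
      (√2 * Real.cos (φ - ψ) - r * μ.re) ^ 2 + (√2 * Real.sin (φ - ψ) - r * μ.im) ^ 2 := by
    intro φ ψ r μ
    have e1 : (√2 : ℂ) * exp (φ * I) - μ * (r * exp (ψ * I)) =
        ((√2 : ℂ) * exp ((φ - ψ : ℝ) * I) - r * μ) * exp (ψ * I) := by
      rw [sub_mul, mul_assoc (√2 : ℂ), ← exp_add,
        show ((φ - ψ : ℝ) : ℂ) * I + ψ * I = φ * I by push_cast; ring]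
      ring
    rw [e1, norm_mul, Complex.norm_exp_ofReal_mul_I, mul_one, ← normSq_eq_norm_sq, normSq_apply,
      sub_re, sub_im, re_ofReal_mul, im_ofReal_mul, re_ofReal_mul, im_ofReal_mul,
      exp_ofReal_mul_I_re, exp_ofReal_mul_I_im]
    ring
  refine disk L J nosq hp0 hp1 hd (ν := exp ((θ - 3 * Real.pi / 4 : ℝ) * I))
    (ν' := exp ((θ' - Real.pi / 4 : ℝ) * I)) (x₀ := 0) (x₁ := 0)
    (Complex.norm_exp_ofReal_mul_I _) (Complex.norm_exp_ofReal_mul_I _) ?_ ?_ ?_ ?_ ?_ ?_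
  · rw [ha, re_exp, zero_add]
    exact cos_ge (by linarith) (by linarith)
  · rw [hb, re_exp, zero_sub,
      show Real.pi - τ - (θ - 3 * Real.pi / 4) = (3 * Real.pi / 4 - τ - θ) + Real.pi by ring,
      Real.cos_add_pi]
    have := cos_ge (δ := 3 * Real.pi / 4 - τ - θ) (by linarith) (by linarith)
    linarith
  · rw [ha, re_exp, zero_add]
    exact cos_ge (by linarith) (by linarith)
  · rw [hb, re_exp, zero_sub,
      show Real.pi - τ - (θ' - Real.pi / 4) = (Real.pi / 4 - τ - θ') + Real.pi by ring,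
      Real.cos_add_pi]
    have := cos_ge (δ := Real.pi / 4 - τ - θ') (by linarith) (by linarith)
    linarith
  · intro t ht h
    rw [k1] at h
    obtain ⟨r, hr⟩ := line _ _ h
    have hr2 : r ≤ 2 - √2 := by
      by_contra hc
      exact (hγ t ht r (not_le.1 hc)).1 hr
    refine ⟨fun he => ?_, fun he => ?_, fun s hs' => ?_⟩
    · rw [hr, ha] at he
      have := off _ _ _ he.symm
      rw [← neg_sub, Real.sin_neg, neg_eq_zero] at this
      exact (Real.sin_pos_of_pos_of_lt_pi (by linarith) (by linarith)).ne' this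
    · rw [hr, hb] at he
      have := off _ _ _ he.symm
      exact (Real.sin_pos_of_pos_of_lt_pi (by linarith) (by linarith)).ne' this
    · left
      obtain ⟨φ, hφ, e⟩ := hK s hs'
      have h3 := nrm φ θ r ((1 - I) / 2)
      have m1 : ((1 - I) / 2 : ℂ).re = 1 / 2 := by simp
      have m2 : ((1 - I) / 2 : ℂ).im = -(1 / 2) := by simp; ring
      rw [m1, m2] at h3
      have h4 := Real.sin_sq_add_cos_sq (φ - θ)
      have h5 := circ_norm (k := √2 * Real.cos (φ - θ + Real.pi / 4)) (r := r)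
        (cos_ge' (by linarith [hφ.1]) (by linarith [hφ.2])) (by
          have := Real.cos_le_one (φ - θ + Real.pi / 4)
          nlinarith) hr2
      rw [Real.cos_add, Real.cos_pi_div_four, Real.sin_pi_div_four] at h5
      rw [hr, e]
      have h6 : 1 ≤ ‖(√2 : ℂ) * exp (φ * I) - (1 - I) / 2 * (r * exp (θ * I))‖ ^ 2 := by
        rw [h3]
        have h7 : √2 * (Real.cos (φ - θ) * (√2 / 2) - Real.sin (φ - θ) * (√2 / 2)) =
            Real.cos (φ - θ) - Real.sin (φ - θ) := by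
          linear_combination (Real.cos (φ - θ) - Real.sin (φ - θ)) / 2 * s2
        rw [h7] at h5
        have h8 : (√2 * Real.cos (φ - θ) - r * (1 / 2)) ^ 2 +
            (√2 * Real.sin (φ - θ) - r * -(1 / 2)) ^ 2 =
            2 + r ^ 2 / 2 - √2 * r * (Real.cos (φ - θ) - Real.sin (φ - θ)) := by
          linear_combination (√2 * √2) * h4 + s2
        rw [h8]
        exact h5
      by_contra hlt
      push Not at hlt
      have := norm_nonneg ((√2 : ℂ) * exp (φ * I) - (1 - I) / 2 * (r * exp (θ * I)))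
      nlinarith
  · intro t ht h
    rw [k2] at h
    obtain ⟨r, hr⟩ := line _ _ h
    have hr2 : r ≤ 2 - √2 := by
      by_contra hc
      exact (hγ t ht r (not_le.1 hc)).2 hr
    refine ⟨fun he => ?_, fun he => ?_, fun s hs' => ?_⟩
    · rw [hr, ha] at he
      have := off _ _ _ he.symm
      rw [← neg_sub, Real.sin_neg, neg_eq_zero] at this
      exact (Real.sin_pos_of_pos_of_lt_pi (by linarith) (by linarith)).ne' this
    · rw [hr, hb] at he
      have := off _ _ _ he.symm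
      exact (Real.sin_pos_of_pos_of_lt_pi (by linarith) (by linarith)).ne' this
    · left
      obtain ⟨φ, hφ, e⟩ := hK s hs'
      have h3 := nrm φ θ' r ((1 + I) / 2)
      have m1 : ((1 + I) / 2 : ℂ).re = 1 / 2 := by simp
      have m2 : ((1 + I) / 2 : ℂ).im = 1 / 2 := by simp
      rw [m1, m2] at h3
      have h4 := Real.sin_sq_add_cos_sq (φ - θ')
      have h5 := circ_norm (k := √2 * Real.cos (φ - θ' - Real.pi / 4)) (r := r)
        (cos_ge' (by linarith [hφ.1]) (by linarith [hφ.2])) (by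
          have := Real.cos_le_one (φ - θ' - Real.pi / 4)
          nlinarith) hr2
      rw [Real.cos_sub, Real.cos_pi_div_four, Real.sin_pi_div_four] at h5
      rw [hr, e]
      have h6 : 1 ≤ ‖(√2 : ℂ) * exp (φ * I) - (1 + I) / 2 * (r * exp (θ' * I))‖ ^ 2 := by
        rw [h3]
        have h7 : √2 * (Real.cos (φ - θ') * (√2 / 2) + Real.sin (φ - θ') * (√2 / 2)) =
            Real.cos (φ - θ') + Real.sin (φ - θ') := by
          linear_combination (Real.cos (φ - θ') + Real.sin (φ - θ')) / 2 * s2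
        rw [h7] at h5
        have h8 : (√2 * Real.cos (φ - θ') - r * (1 / 2)) ^ 2 +
            (√2 * Real.sin (φ - θ') - r * (1 / 2)) ^ 2 =
            2 + r ^ 2 / 2 - √2 * r * (Real.cos (φ - θ') + Real.sin (φ - θ')) := by
          linear_combination (√2 * √2) * h4 + s2
        rw [h8]
        exact h5
      by_contra hlt
      push Not at hlt
      have := norm_nonneg ((√2 : ℂ) * exp (φ * I) - (1 + I) / 2 * (r * exp (θ' * I)))
      nlinarith

end Pool.Agent.H436.Arc
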