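import Pool.Agent.H436.Arc.Core

/-! The principle in a disk and in a rectangle. -/

set_option autoImplicit false
open Complex Set Topology Metric Filter

namespace Pool.Agent.H436.Arc

open Pool.Agent.H763R2 Pool.Agent.H763R2.An
open Pool.Agent.H763R2.Dm (NoSq)

variable {c : ℝ → ℂ}

theorem norm_left (A B : ℂ) : ‖A + I * (B - A)‖ = √2 * ‖A - (1 - I) / 2 * B‖ := by
  rw [← TH569.Peg.norm_one_sub_I', ← norm_mul]
  congr 1
  linear_combination (1 / 2 : ℂ) * B * I_mul_I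

theorem norm_right (A B : ℂ) : ‖A - I * (B - A)‖ = √2 * ‖A - (1 + I) / 2 * B‖ := by
  rw [← TH569.Peg.norm_one_add_I, ← norm_mul]
  congr 1
  linear_combination (1 / 2 : ℂ) * B * I_mul_I

theorem norm_left' (A B : ℂ) : ‖B + I * (B - A)‖ = ‖A - (1 - I) * B‖ := by
  rw [show B + I * (B - A) = -I * (A - (1 - I) * B) by linear_combination B * I_mul_I]
  simp

theorem norm_right' (A B : ℂ) : ‖B - I * (B - A)‖ = ‖A - (1 + I) * B‖ := by
  rw [show B - I * (B - A) = I * (A - (1 + I) * B) by linear_combination B * I_mul_I]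
  simp

theorem ne_pair (L : Loop c) (J : Inj c) {p s t : ℝ} (hs : s ∈ Icc 0 p) (ht : t ∈ Icc p 1)
    (h0 : c t ≠ c 0) (hp : c t ≠ c p) : c s ≠ c t := by
  have c1 : c 1 = c 0 := by
    have := L.per 0
    rwa [zero_add] at this
  have h1 : s < t := by
    refine lt_of_le_of_ne (hs.2.trans ht.1) fun h => hp ?_
    have : t = p := le_antisymm (h ▸ hs.2) ht.1
    rw [this]
  have h2 : t < s + 1 := by
    refine lt_of_le_of_ne (by linarith [hs.1, ht.2]) fun h => h0 ?_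
    have : t = 1 := by linarith [hs.1, ht.2]
    rw [this, c1]
  exact J s t h1 h2

/-- the real part in the direction `ν` is at most the norm -/
theorem re_le {ν z : ℂ} (hν : ‖ν‖ = 1) : (z * (starRingEnd ℂ) ν).re ≤ ‖z‖ := by
  refine (re_le_norm _).trans ?_
  rw [norm_mul, Complex.norm_conj, hν, mul_one]

/-- the theorem in the disk with two separating lines -/
theorem disk (L : Loop c) (J : Inj c) (nosq : NoSq (range c)) {p : ℝ} (hp0 : 0 < p)
    (hp1 : p < 1) (hd : ∀ t, ‖c t‖ ≤ √2) {ν ν' : ℂ} {x₀ x₁ : ℝ} (hν : ‖ν‖ = 1) (hν' : ‖ν'‖ = 1)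
    (ha : x₀ + 1 ≤ (c 0 * (starRingEnd ℂ) ν).re) (hb : (c p * (starRingEnd ℂ) ν).re ≤ x₀ - 1)
    (ha' : x₁ + 1 ≤ (c 0 * (starRingEnd ℂ) ν').re) (hb' : (c p * (starRingEnd ℂ) ν').re ≤ x₁ - 1)
    (hm : ∀ t ∈ Icc p 1, ((1 - I) / 2 * c t * (starRingEnd ℂ) ν).re = x₀ →
      c t ≠ c 0 ∧ c t ≠ c p ∧ ∀ s ∈ Icc 0 p, 1 ≤ ‖c s - (1 - I) / 2 * c t‖ ∨
        √2 ≤ ‖c s - (1 - I) * c t‖)
    (hm' : ∀ t ∈ Icc p 1, ((1 + I) / 2 * c t * (starRingEnd ℂ) ν').re = x₁ →
      c t ≠ c 0 ∧ c t ≠ c p ∧ ∀ s ∈ Icc 0 p, 1 ≤ ‖c s - (1 + I) / 2 * c t‖ ∨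
        √2 ≤ ‖c s - (1 + I) * c t‖) : False := by
  have hs : (0:ℝ) < √2 := Real.sqrt_pos.2 (by norm_num)
  have s2 : √2 * √2 = 2 := Real.mul_self_sqrt (by norm_num)
  have far : ∀ {z : ℂ}, √2 ≤ ‖z‖ → mgc c z ≤ 0 := fun h => TH569.Peg.mgc_le_far L hs hd h
  -- norms of the points minus their turned halves
  have n1 : ∀ z : ℂ, ‖z - (1 - I) / 2 * z‖ = ‖z‖ / √2 := by
    intro z
    rw [show z - (1 - I) / 2 * z = (1 + I) * z / 2 by ring, norm_div, norm_mul,
      TH569.Peg.norm_one_add_I]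
    norm_num
    field_simp
    linear_combination ‖z‖ * s2
  have n2 : ∀ z : ℂ, ‖z - (1 + I) / 2 * z‖ = ‖z‖ / √2 := by
    intro z
    rw [show z - (1 + I) / 2 * z = (1 - I) * z / 2 by ring, norm_div, norm_mul,
      TH569.Peg.norm_one_sub_I']
    norm_num
    field_simp
    linear_combination ‖z‖ * s2
  have le1 : ∀ t, ‖c t‖ / √2 ≤ 1 := fun t => by
    rw [div_le_one hs]; exact hd t
  refine principle L J nosq hp0 hp1 (f := fun t => ((1 - I) / 2 * c t * (starRingEnd ℂ) ν).re - x₀)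
    (g := fun t => ((1 + I) / 2 * c t * (starRingEnd ℂ) ν').re - x₁) ?_ ?_
    (lg := fun x t => c x ≠ c t ∧ (1 ≤ ‖c x - (1 - I) / 2 * c t‖ ∨ √2 ≤ ‖c x - (1 - I) * c t‖))
    (rg := fun x t => c x ≠ c t ∧ (1 ≤ ‖c x - (1 + I) / 2 * c t‖ ∨ √2 ≤ ‖c x - (1 + I) * c t‖))
    ?_ ?_ ?_ ?_ ?_ ?_ ?_ ?_
  · have := L.cont
    fun_prop
  · have := L.cont
    fun_prop
  · rintro x t ⟨h1, h2⟩
    refine ⟨h1, h2.imp (fun h => far ?_) (fun h => far ?_)⟩
    · rw [norm_left]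
      nlinarith
    · rwa [norm_left']
  · rintro x t ⟨h1, h2⟩
    refine ⟨h1, h2.imp (fun h => far ?_) (fun h => far ?_)⟩
    · rw [norm_right]
      nlinarith
    · rwa [norm_right']
  · intro t ht h
    have h3 := re_le (z := c 0 - (1 - I) / 2 * c t) hν
    rw [sub_mul, sub_re] at h3
    refine ⟨fun he => ?_, Or.inl (by linarith)⟩
    rw [← he] at h h3
    rw [n1] at h3
    have := le1 0
    refine (hm t ht ?_).1 he.symm
    rw [← he]
    linarith
  · intro t ht h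
    have h3 := re_le (z := (1 - I) / 2 * c t - c p) hν
    rw [sub_mul, sub_re, norm_sub_rev] at h3
    refine ⟨fun he => ?_, Or.inl (by linarith)⟩
    rw [← he] at h h3
    rw [n1] at h3
    have := le1 p
    refine (hm t ht ?_).2.1 he.symm
    rw [← he]
    linarith
  · intro t ht h x hx
    obtain ⟨h1, h2, h3⟩ := hm t ht (by linarith)
    exact ⟨ne_pair L J hx ht h1 h2, h3 x hx⟩
  · intro t ht h
    have h3 := re_le (z := c 0 - (1 + I) / 2 * c t) hν'
    rw [sub_mul, sub_re] at h3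
    refine ⟨fun he => ?_, Or.inl (by linarith)⟩
    rw [← he] at h h3
    rw [n2] at h3
    have := le1 0
    refine (hm' t ht ?_).1 he.symm
    rw [← he]
    linarith
  · intro t ht h
    have h3 := re_le (z := (1 + I) / 2 * c t - c p) hν'
    rw [sub_mul, sub_re, norm_sub_rev] at h3
    refine ⟨fun he => ?_, Or.inl (by linarith)⟩
    rw [← he] at h h3
    rw [n2] at h3
    have := le1 p
    refine (hm' t ht ?_).2.1 he.symm
    rw [← he]
    linarith
  · intro t ht h x hx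
    obtain ⟨h1, h2, h3⟩ := hm' t ht (by linarith)
    exact ⟨ne_pair L J hx ht h1 h2, h3 x hx⟩

/-- the version with the two diagonals -/
theorem diag (L : Loop c) (J : Inj c) (nosq : NoSq (range c)) {p : ℝ} (hp0 : 0 < p)
    (hp1 : p < 1) (hd : ∀ t, ‖c t‖ ≤ √2) (ha : 1 ≤ (c 0).re) (hb : (c p).re ≤ -1)
    (ha' : |(c 0).im| < 1) (hb' : |(c p).im| < 1)
    (h : ∀ t ∈ Icc p 1, ∀ x : ℝ, (c t = x + x * I ∨ c t = -x + x * I) →
      ∀ s ∈ Icc 0 p, 1 ≤ ‖c s - x * I‖ ∨ √2 ≤ ‖c s - 2 * x * I‖) : False := by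
  obtain ⟨a1, a2⟩ := abs_lt.1 ha'
  obtain ⟨b1, b2⟩ := abs_lt.1 hb'
  refine disk L J nosq hp0 hp1 hd (ν := 1) (ν' := 1) (x₀ := 0) (x₁ := 0) (by simp) (by simp)
    (by simpa using ha) (by simpa using hb) (by simpa using ha) (by simpa using hb) ?_ ?_
  · intro t ht h0
    have e1 : ((1 - I) / 2 * c t * (starRingEnd ℂ) 1).re = ((c t).re + (c t).im) / 2 := by
      rw [map_one, mul_one, show (1 - I) / 2 * c t = (((1 / 2 : ℝ) : ℂ)) * ((1 - I) * c t) by
        push_cast; ring, re_ofReal_mul]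
      simp
      ring
    rw [e1] at h0
    have hr : (c t).re = -(c t).im := by linarith
    have e2 : (1 - I) / 2 * c t = ((c t).im : ℂ) * I := by
      conv_lhs => rw [← re_add_im (c t), hr]
      push_cast
      linear_combination (-(1 / 2 : ℂ)) * ((c t).im : ℂ) * I_mul_I
    refine ⟨fun he => ?_, fun he => ?_, fun s hs' => ?_⟩
    · rw [he] at hr; linarith
    · rw [he] at hr; linarith
    · have h1 := h t ht (c t).im (Or.inr (by
        apply Complex.ext <;> simp [hr])) s hs'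
      rw [show (1 - I) * c t = 2 * ((1 - I) / 2 * c t) by ring, e2, ← mul_assoc]
      exact h1
  · intro t ht h0
    have e1 : ((1 + I) / 2 * c t * (starRingEnd ℂ) 1).re = ((c t).re - (c t).im) / 2 := by
      rw [map_one, mul_one, show (1 + I) / 2 * c t = (((1 / 2 : ℝ) : ℂ)) * ((1 + I) * c t) by
        push_cast; ring, re_ofReal_mul]
      simp
      ring
    rw [e1] at h0
    have hr : (c t).re = (c t).im := by linarith
    have e2 : (1 + I) / 2 * c t = ((c t).im : ℂ) * I := by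
      conv_lhs => rw [← re_add_im (c t), hr]
      linear_combination (1 / 2 : ℂ) * ((c t).im : ℂ) * I_mul_I
    refine ⟨fun he => ?_, fun he => ?_, fun s hs' => ?_⟩
    · rw [he] at hr; linarith
    · rw [he] at hr; linarith
    · have h1 := h t ht (c t).im (Or.inl (by
        apply Complex.ext <;> simp [hr])) s hs'
      rw [show (1 + I) * c t = 2 * ((1 + I) / 2 * c t) by ring, e2, ← mul_assoc]
      exact h1

/-- the version with distances -/
theorem distances (L : Loop c) (J : Inj c) (nosq : NoSq (range c)) {p : ℝ} (hp0 : 0 < p)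
    (hp1 : p < 1)
    (h1 : ∀ t ∈ Icc p 1, ∀ u, ‖c u - c t‖ ≤ √2 * max ‖c 0 - c t‖ ‖c p - c t‖)
    (h2 : ∀ t ∈ Icc p 1, ‖c 0 - c t‖ = ‖c p - c t‖ → ∀ s ∈ Icc 0 p, ∀ u,
      ‖c u - c t‖ ≤ √2 * ‖c s - c t‖) : False := by
  have hne : c 0 ≠ c p := J 0 p hp0 (by linarith)
  have hpos : 0 < ‖c 0 - c p‖ := norm_pos_iff.2 (sub_ne_zero.2 hne)
  have hs : (0:ℝ) < √2 := Real.sqrt_pos.2 (by norm_num)
  -- a point at the distance of the farthest point is not inside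
  have out : ∀ {z : ℂ} {t : ℝ}, z ≠ c t → (∀ u, ‖c u - c t‖ ≤ ‖z - c t‖) → mgc c z ≤ 0 := by
    intro z t hz hu
    refine W675.Peg.mgc_le_of_dir L (v := z - c t) (sub_ne_zero.2 hz) fun s hs0 u he => ?_
    have h3 := hu u
    have hz0 : 0 < ‖z - c t‖ := norm_pos_iff.2 (sub_ne_zero.2 hz)
    rw [he, show z + s * (z - c t) - c t = ((1 + s : ℝ) : ℂ) * (z - c t) by push_cast; ring,
      norm_mul, norm_real, Real.norm_of_nonneg (by linarith)] at h3
    nlinarith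
  have key : ∀ (x t : ℝ) (e : ℂ), ‖1 - e‖ = √2 → c x ≠ c t →
      (∀ u, ‖c u - c t‖ ≤ √2 * ‖c x - c t‖) → mgc c (c x + e * (c t - c x)) ≤ 0 := by
    intro x t e he hxt hu
    have e1 : c x + e * (c t - c x) - c t = (1 - e) * (c x - c t) := by ring
    refine out (t := t) (fun h => ?_) (fun u => ?_)
    · rw [h, sub_self] at e1
      rcases mul_eq_zero.1 e1.symm with h3 | h3
      · rw [h3, norm_zero] at he; exact hs.ne he
      · exact hxt (sub_eq_zero.1 h3)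
    · rw [e1, norm_mul, he]
      exact hu u
  have cf : Continuous fun t => ‖c p - c t‖ - ‖c 0 - c t‖ := by
    have := L.cont
    fun_prop
  have K : ∀ x t, (c x ≠ c t ∧ ∀ u, ‖c u - c t‖ ≤ √2 * ‖c x - c t‖) → c x ≠ c t ∧
      (mgc c (c x + I * (c t - c x)) ≤ 0 ∨ mgc c (c t + I * (c t - c x)) ≤ 0) := fun x t h =>
    ⟨h.1, Or.inl (key x t I TH569.Peg.norm_one_sub_I' h.1 h.2)⟩
  have K' : ∀ x t, (c x ≠ c t ∧ ∀ u, ‖c u - c t‖ ≤ √2 * ‖c x - c t‖) → c x ≠ c t ∧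
      (mgc c (c x - I * (c t - c x)) ≤ 0 ∨ mgc c (c t - I * (c t - c x)) ≤ 0) := fun x t h => by
    refine ⟨h.1, Or.inl ?_⟩
    have := key x t (-I) (by rw [sub_neg_eq_add]; exact TH569.Peg.norm_one_add_I) h.1 h.2
    rwa [neg_mul, ← sub_eq_add_neg] at this
  have A0 : ∀ t ∈ Icc p 1, ‖c p - c t‖ - ‖c 0 - c t‖ ≤ 0 →
      c 0 ≠ c t ∧ ∀ u, ‖c u - c t‖ ≤ √2 * ‖c 0 - c t‖ := by
    intro t ht h
    refine ⟨fun he => ?_, fun u => ?_⟩
    · rw [← he, sub_self, norm_zero, norm_sub_rev] at h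
      linarith
    · have := h1 t ht u
      rwa [max_eq_left (by linarith)] at this
  have B0 : ∀ t ∈ Icc p 1, 0 ≤ ‖c p - c t‖ - ‖c 0 - c t‖ →
      c p ≠ c t ∧ ∀ u, ‖c u - c t‖ ≤ √2 * ‖c p - c t‖ := by
    intro t ht h
    refine ⟨fun he => ?_, fun u => ?_⟩
    · rw [← he, sub_self, norm_zero] at h
      linarith
    · have := h1 t ht u
      rwa [max_eq_right (by linarith)] at this
  have M0 : ∀ t ∈ Icc p 1, ‖c p - c t‖ - ‖c 0 - c t‖ = 0 → ∀ x ∈ Icc 0 p,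
      c x ≠ c t ∧ ∀ u, ‖c u - c t‖ ≤ √2 * ‖c x - c t‖ := by
    intro t ht h x hx
    exact ⟨ne_pair L J hx ht (A0 t ht h.le).1.symm (B0 t ht h.ge).1.symm,
      h2 t ht (by linarith) x hx⟩
  exact principle L J nosq hp0 hp1 cf.continuousOn cf.continuousOn K K' A0 B0 M0 A0 B0 M0

end Pool.Agent.H436.Arc
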